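import Pool.Agent.Helper20.Flip.Chain

/-!
# Directions of chains (module FLIP-DIR)
-/

set_option autoImplicit false

namespace Pool.Agent.Helper20.Flip

/-- small chains -/
def Small (c : List Edge) : Prop := ∀ e ∈ c, 0 < e.1 ∧ |e.2| ≤ 1 / 100

lemma ht_eq (s : ℝ) (c : List Edge) :
    ht s c = (vec c).2 * Real.cos s - (vec c).1 * Real.sin s := by
  induction c with
  | nil => simp [ht, vec]
  | cons e c ih =>
    simp only [ht, vec, List.map_cons, List.sum_cons] at ih ⊢
    rw [ih, Real.sin_sub]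
    ring

theorem ht_append (s : ℝ) (c d : List Edge) : ht s (c ++ d) = ht s c + ht s d := by
  simp [ht, List.map_append, List.sum_append]

lemma list_sum_nonneg {α : Type} (f : α → ℝ) (c : List α) (h : ∀ e ∈ c, 0 ≤ f e) :
    0 ≤ (c.map f).sum := by
  induction c with
  | nil => simp
  | cons e c ih =>
    rw [List.map_cons, List.sum_cons]
    exact add_nonneg (h e (List.mem_cons_self ..)) (ih fun e' he' => h e' (List.mem_cons_of_mem _ he'))

lemma list_sum_pos {α : Type} (f : α → ℝ) (c : List α) (h : ∀ e ∈ c, 0 ≤ f e)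
    (h' : ∃ e ∈ c, 0 < f e) : 0 < (c.map f).sum := by
  induction c with
  | nil =>
    obtain ⟨e, he, -⟩ := h'
    exact absurd he (List.not_mem_nil)
  | cons e c ih =>
    rw [List.map_cons, List.sum_cons]
    have h1 : ∀ e' ∈ c, 0 ≤ f e' := fun e' he' => h e' (List.mem_cons_of_mem _ he')
    obtain ⟨e', he', hpos⟩ := h'
    rcases List.mem_cons.1 he' with rfl | he'
    · exact add_pos_of_pos_of_nonneg hpos (list_sum_nonneg f c h1)
    · exact add_pos_of_nonneg_of_pos (h e (List.mem_cons_self ..)) (ih h1 ⟨e', he', hpos⟩)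

lemma list_sum_neg {α : Type} (f : α → ℝ) (c : List α) (h : ∀ e ∈ c, f e ≤ 0)
    (h' : ∃ e ∈ c, f e < 0) : (c.map f).sum < 0 := by
  have h1 := list_sum_pos (fun e => - f e) c (fun e he => by have := h e he; linarith)
    (by obtain ⟨e, he, h2⟩ := h'; exact ⟨e, he, by linarith⟩)
  have h2 : (c.map fun e => - f e).sum = - (c.map f).sum := by
    clear h h' h1
    induction c with
    | nil => simp
    | cons e c ih =>
      rw [List.map_cons, List.sum_cons, List.map_cons, List.sum_cons, ih]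
      ring
  rw [h2] at h1
  linarith

lemma vec_fst_pos {c : List Edge} (h : Small c) (hc : c ≠ []) : 0 < (vec c).1 := by
  obtain ⟨e, he⟩ := List.exists_mem_of_ne_nil c hc
  have hpos : ∀ e ∈ c, 0 < e.1 * Real.cos e.2 := by
    intro e he
    obtain ⟨h1, h2⟩ := h e he
    refine mul_pos h1 (Real.cos_pos_of_mem_Ioo ⟨?_, ?_⟩)
    · have := (abs_le.1 h2).1
      have := Real.pi_gt_three
      linarith
    · have := (abs_le.1 h2).2
      have := Real.pi_gt_three
      linarith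
  exact list_sum_pos (fun e : Edge => e.1 * Real.cos e.2) c (fun e he => (hpos e he).le)
    ⟨e, he, hpos e he⟩

theorem ht_dir {c : List Edge} (h : Small c) : ht (dir c) c = 0 := by
  by_cases hc : c = []
  · subst hc
    simp [ht]
  · have hx := vec_fst_pos h hc
    rw [ht_eq]
    have h1 : Real.sin (dir c) = (vec c).2 / (vec c).1 * Real.cos (dir c) := by
      have h2 : Real.tan (dir c) = (vec c).2 / (vec c).1 := Real.tan_arctan _
      have h3 : 0 < Real.cos (dir c) := Real.cos_arctan_pos _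
      rw [← h2, Real.tan_eq_sin_div_cos]
      field_simp
    rw [h1]
    field_simp
    ring

lemma dir_gt (c : List Edge) : -(Real.pi / 2) < dir c := Real.neg_pi_div_two_lt_arctan _

lemma dir_lt' (c : List Edge) : dir c < Real.pi / 2 := Real.arctan_lt_pi_div_two _

theorem lt_dir {c : List Edge} (h : Small c) {lo : ℝ} (hlo : ∀ e ∈ c, lo ≤ e.2)
    (hlo' : ∃ e ∈ c, lo < e.2) : lo < dir c := by
  by_contra hcon
  rw [not_lt] at hcon
  have h0 := ht_dir h
  have hpi := Real.pi_gt_three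
  have hd := dir_gt c
  have h1 : 0 < ht (dir c) c := by
    refine list_sum_pos (fun e : Edge => e.1 * Real.sin (e.2 - dir c)) c ?_ ?_
    · intro e he
      obtain ⟨h1, h2⟩ := h e he
      refine mul_nonneg h1.le (Real.sin_nonneg_of_nonneg_of_le_pi ?_ ?_)
      · linarith [hlo e he]
      · linarith [(abs_le.1 h2).2]
    · obtain ⟨e, he, hlt⟩ := hlo'
      obtain ⟨h1, h2⟩ := h e he
      refine ⟨e, he, mul_pos h1 (Real.sin_pos_of_pos_of_lt_pi ?_ ?_)⟩
      · linarith
      · linarith [(abs_le.1 h2).2]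
  linarith

theorem dir_lt {c : List Edge} (h : Small c) {hi : ℝ} (hhi : ∀ e ∈ c, e.2 ≤ hi)
    (hhi' : ∃ e ∈ c, e.2 < hi) : dir c < hi := by
  by_contra hcon
  rw [not_lt] at hcon
  have h0 := ht_dir h
  have hpi := Real.pi_gt_three
  have hd := dir_lt' c
  have h1 : ht (dir c) c < 0 := by
    refine list_sum_neg (fun e : Edge => e.1 * Real.sin (e.2 - dir c)) c ?_ ?_
    · intro e he
      obtain ⟨h1, h2⟩ := h e he
      have h3 : Real.sin (e.2 - dir c) ≤ 0 := by
        refine Real.sin_nonpos_of_nonpos_of_neg_pi_le ?_ ?_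
        · linarith [hhi e he]
        · linarith [(abs_le.1 h2).1]
      exact mul_nonpos_of_nonneg_of_nonpos h1.le h3
    · obtain ⟨e, he, hlt⟩ := hhi'
      obtain ⟨h1, h2⟩ := h e he
      refine ⟨e, he, mul_neg_of_pos_of_neg h1 (Real.sin_neg_of_neg_of_neg_pi_lt ?_ ?_)⟩
      · linarith
      · linarith [(abs_le.1 h2).1]
  linarith

theorem dir_mem {c : List Edge} (h : Small c) (hc : c ≠ []) {lo hi : ℝ}
    (hlo : ∀ e ∈ c, lo ≤ e.2) (hhi : ∀ e ∈ c, e.2 ≤ hi) : lo ≤ dir c ∧ dir c ≤ hi := by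
  obtain ⟨e, he⟩ := List.exists_mem_of_ne_nil c hc
  constructor
  · refine le_of_forall_lt fun x hx => ?_
    exact lt_dir h (fun e he => hx.le.trans (hlo e he)) ⟨e, he, hx.trans_le (hlo e he)⟩
  · refine le_of_forall_gt fun x hx => ?_
    exact dir_lt h (fun e he => (hhi e he).trans hx.le) ⟨e, he, (hhi e he).trans_lt hx⟩

theorem dir_singleton {e : Edge} (h : Small [e]) : dir [e] = e.2 := by
  have h1 := dir_mem (lo := e.2) (hi := e.2) h (by simp) (by simp) (by simp)
  exact le_antisymm h1.2 h1.1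

theorem ht_pos {c : List Edge} {s : ℝ} (h : ∀ e ∈ c, 0 < e.1 ∧ s < e.2 ∧ e.2 < s + 3)
    (hc : c ≠ []) : 0 < ht s c := by
  obtain ⟨e, he⟩ := List.exists_mem_of_ne_nil c hc
  have hpi := Real.pi_gt_three
  have hpos : ∀ e ∈ c, 0 < e.1 * Real.sin (e.2 - s) := by
    intro e he
    obtain ⟨h1, h2, h3⟩ := h e he
    exact mul_pos h1 (Real.sin_pos_of_pos_of_lt_pi (by linarith) (by linarith))
  exact list_sum_pos (fun e : Edge => e.1 * Real.sin (e.2 - s)) c (fun e he => (hpos e he).le)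
    ⟨e, he, hpos e he⟩

theorem ht_neg {c : List Edge} {s : ℝ} (h : ∀ e ∈ c, 0 < e.1 ∧ e.2 < s ∧ s < e.2 + 3)
    (hc : c ≠ []) : ht s c < 0 := by
  obtain ⟨e, he⟩ := List.exists_mem_of_ne_nil c hc
  have hpi := Real.pi_gt_three
  have hneg : ∀ e ∈ c, e.1 * Real.sin (e.2 - s) < 0 := by
    intro e he
    obtain ⟨h1, h2, h3⟩ := h e he
    exact mul_neg_of_pos_of_neg h1 (Real.sin_neg_of_neg_of_neg_pi_lt (by linarith) (by linarith))
  exact list_sum_neg (fun e : Edge => e.1 * Real.sin (e.2 - s)) c (fun e he => (hneg e he).le)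
    ⟨e, he, hneg e he⟩

lemma sin_sub_self_bound {u : ℝ} (hu : |u| ≤ 1) : |u - Real.sin u| ≤ |u| ^ 3 := by
  have h1 := Real.sin_bound hu
  have h2 : u - Real.sin u = u ^ 3 / 6 - (Real.sin u - (u - u ^ 3 / 6)) := by ring
  have h3 : |u ^ 3 / 6| = |u| ^ 3 / 6 := by rw [abs_div, abs_pow]; norm_num
  have h4 : |u| ^ 5 ≤ |u| ^ 3 := pow_le_pow_of_le_one (abs_nonneg _) hu (by norm_num)
  have h5 : 0 ≤ |u| ^ 3 := by positivity
  rw [h2]
  refine (abs_sub _ _).trans ?_
  rw [h3]
  linarith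

theorem dir_approx {c : List Edge} (h : Small c) (hc : c ≠ []) {t : ℝ} (ht : t ≤ 1 / 100)
    (hct : ∀ e ∈ c, |e.2| ≤ t) :
    |dir c - (c.map fun e => e.1 * e.2).sum / (c.map fun e => e.1).sum| ≤ 8 * t ^ 3 := by
  obtain ⟨e₀, he₀⟩ := List.exists_mem_of_ne_nil c hc
  have ht0 : 0 ≤ t := (abs_nonneg _).trans (hct e₀ he₀)
  have hL : 0 < (c.map fun e => e.1).sum :=
    list_sum_pos (fun e : Edge => e.1) c (fun e he => (h e he).1.le) ⟨e₀, he₀, (h e₀ he₀).1⟩
  obtain ⟨hd1, hd2⟩ := dir_mem (lo := -t) (hi := t) h hc (fun e he => (abs_le.1 (hct e he)).1)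
    (fun e he => (abs_le.1 (hct e he)).2)
  set s := dir c with hs
  have h0 : (c.map fun e => e.1 * Real.sin (e.2 - s)).sum = 0 := ht_dir h
  have key : ∀ c' : List Edge, (∀ e ∈ c', 0 < e.1 ∧ |e.2| ≤ t) →
      |s * (c'.map fun e => e.1).sum - (c'.map fun e => e.1 * e.2).sum +
        (c'.map fun e => e.1 * Real.sin (e.2 - s)).sum| ≤
      (8 * t ^ 3) * (c'.map fun e => e.1).sum := by
    intro c'
    induction c' with
    | nil => simp
    | cons e c' ih =>
      intro hc'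
      have ih' := ih fun e' he' => hc' e' (List.mem_cons_of_mem _ he')
      obtain ⟨h1, h2⟩ := hc' e (List.mem_cons_self ..)
      simp only [List.map_cons, List.sum_cons]
      have h3 : s * (e.1 + (c'.map fun e => e.1).sum) -
          (e.1 * e.2 + (c'.map fun e => e.1 * e.2).sum) +
          (e.1 * Real.sin (e.2 - s) + (c'.map fun e => e.1 * Real.sin (e.2 - s)).sum) =
          (- (e.1 * ((e.2 - s) - Real.sin (e.2 - s)))) +
          (s * (c'.map fun e => e.1).sum - (c'.map fun e => e.1 * e.2).sum +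
            (c'.map fun e => e.1 * Real.sin (e.2 - s)).sum) := by ring
      rw [h3, mul_add]
      refine (abs_add_le _ _).trans (add_le_add ?_ ih')
      rw [abs_neg, abs_mul, abs_of_pos h1, mul_comm]
      refine mul_le_mul_of_nonneg_right ?_ h1.le
      have h4 : |e.2 - s| ≤ 2 * t := by
        rw [abs_le] at h2 ⊢
        constructor <;> linarith
      refine (sin_sub_self_bound (h4.trans (by linarith))).trans ?_
      calc |e.2 - s| ^ 3 ≤ (2 * t) ^ 3 := by gcongr
        _ = 8 * t ^ 3 := by ring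
  have h1 := key c fun e he => ⟨(h e he).1, hct e he⟩
  rw [h0, add_zero] at h1
  have h2 : s - (c.map fun e => e.1 * e.2).sum / (c.map fun e => e.1).sum =
      (s * (c.map fun e => e.1).sum - (c.map fun e => e.1 * e.2).sum) /
        (c.map fun e => e.1).sum := by
    field_simp
  rw [h2, abs_div, abs_of_pos hL, div_le_iff₀ hL]
  exact h1

lemma half_le_sin {u : ℝ} (h0 : 0 < u) (h1 : u ≤ 1) : u ≤ 2 * Real.sin u := by
  have h2 := Real.sin_gt_sub_cube h0
  have h3 : u ^ 3 ≤ u := by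
    calc u ^ 3 ≤ u ^ 1 := pow_le_pow_of_le_one h0.le h1 (by norm_num)
      _ = u := pow_one u
  linarith

/-- two edges: the lid deviates from the long edge by at most `2 * (short/long) * (angle)` -/
theorem dir_two {l₁ l₂ θ₁ θ₂ : ℝ} (h1 : 0 < l₁) (h2 : 0 < l₂) (ha : |θ₁| ≤ 1 / 100)
    (hb : |θ₂| ≤ 1 / 100) (h12 : θ₂ < θ₁) :
    (θ₂ < dir [(l₁, θ₁), (l₂, θ₂)] ∧ dir [(l₁, θ₁), (l₂, θ₂)] < θ₁) ∧
    dir [(l₁, θ₁), (l₂, θ₂)] - θ₂ ≤ 2 * (l₁ / l₂) * (θ₁ - θ₂) ∧
    θ₁ - dir [(l₁, θ₁), (l₂, θ₂)] ≤ 2 * (l₂ / l₁) * (θ₁ - θ₂) := by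
  have hsm : Small [(l₁, θ₁), (l₂, θ₂)] := by
    intro e he
    simp only [List.mem_cons, List.not_mem_nil, or_false] at he
    rcases he with rfl | rfl
    · exact ⟨h1, ha⟩
    · exact ⟨h2, hb⟩
  have hlo : θ₂ < dir [(l₁, θ₁), (l₂, θ₂)] := by
    refine lt_dir hsm ?_ ⟨(l₁, θ₁), by simp, h12⟩
    intro e he
    simp only [List.mem_cons, List.not_mem_nil, or_false] at he
    rcases he with rfl | rfl
    · exact h12.le
    · exact le_refl _
  have hhi : dir [(l₁, θ₁), (l₂, θ₂)] < θ₁ := by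
    refine dir_lt hsm ?_ ⟨(l₂, θ₂), by simp, h12⟩
    intro e he
    simp only [List.mem_cons, List.not_mem_nil, or_false] at he
    rcases he with rfl | rfl
    · exact le_refl _
    · exact h12.le
  have h0 := ht_dir hsm
  set s := dir [(l₁, θ₁), (l₂, θ₂)] with hs
  simp only [ht, List.map_cons, List.sum_cons, List.map_nil, List.sum_nil, add_zero] at h0
  have h3 : Real.sin (θ₂ - s) = - Real.sin (s - θ₂) := by
    rw [← Real.sin_neg]; congr 1; ring
  rw [h3] at h0
  have ha1 := (abs_le.1 ha).2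
  have hb1 := (abs_le.1 hb).1
  have e1 := half_le_sin (u := s - θ₂) (by linarith) (by linarith)
  have e2 := half_le_sin (u := θ₁ - s) (by linarith) (by linarith)
  have e3 := Real.sin_lt (x := s - θ₂) (by linarith)
  have e4 := Real.sin_lt (x := θ₁ - s) (by linarith)
  have h5 : l₁ * Real.sin (θ₁ - s) = l₂ * Real.sin (s - θ₂) := by linarith
  refine ⟨⟨hlo, hhi⟩, ?_, ?_⟩
  · have h6 : Real.sin (s - θ₂) = l₁ / l₂ * Real.sin (θ₁ - s) := by
      field_simp
      linarith
    have h7 : 0 < l₁ / l₂ := div_pos h1 h2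
    calc s - θ₂ ≤ 2 * Real.sin (s - θ₂) := e1
      _ = 2 * (l₁ / l₂) * Real.sin (θ₁ - s) := by rw [h6]; ring
      _ ≤ 2 * (l₁ / l₂) * (θ₁ - θ₂) := by
        refine mul_le_mul_of_nonneg_left ?_ (by positivity)
        linarith
  · have h6 : Real.sin (θ₁ - s) = l₂ / l₁ * Real.sin (s - θ₂) := by
      field_simp
      linarith
    have h7 : 0 < l₂ / l₁ := div_pos h2 h1
    calc θ₁ - s ≤ 2 * Real.sin (θ₁ - s) := e2
      _ = 2 * (l₂ / l₁) * Real.sin (s - θ₂) := by rw [h6]; ring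
      _ ≤ 2 * (l₂ / l₁) * (θ₁ - θ₂) := by
        refine mul_le_mul_of_nonneg_left ?_ (by positivity)
        linarith

end Pool.Agent.Helper20.Flip
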